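import Mathlib
import Pool.Agent.H548.BL.Main
import Pool.Agent.H548.BL.Geo

/-!
The weak form of the conjecture of Manin for smooth complete intersections `X` of `k` divisors of
type `(1,1)` in the product of two projective spaces of dimension `N - 1 ≥ 2 k - 1`, over the
rational numbers, and all big and nef line bundles `L`.

* `M 0, …, M (k-1)`: integer `N × N` matrices, the bilinear forms `x ᵀ M i y`.
* `rv M x i = x ᵀ M i` and `cv M y i = M i y`: the coefficient vectors of the `k` linear forms in
  the other variable.
* `Inc M x y`: the point `(x, y)` satisfies the `k` equations `x ᵀ M i y = 0`, which define `X`.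
* `Smooth M`: at every complex point of `X` the gradients of the `k` equations are linearly
  independent.
* `FinZeros M`: the form `det (s₁ M₁ + ⋯ + s_k M_k)` has finitely many rational zeros (up to
  factors).  It is assumed only for `k ≥ 3`.
* `U`: the points `(x, y)` of `X` such that the `k` vectors `rv M x i` are linearly independent
  and the `k` vectors `cv M y i` are linearly independent.
* `Rep v`: `v` is the normalised primitive integer representative of a rational point of a
  projective space (greatest common divisor of the coordinates `1`, first nonzero coordinate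
  positive); `ht v` is its height, the maximum of the absolute values of the coordinates.
* `fuj (N - k) l` is the infimum of all `t` such that `t L + K` is in the cone generated by the
  classes `(1,0)` and `(0,1)`, for `L = (l 0, l 1)` and `K = (-(N - k), -(N - k))`.

The theorem: `U` is not empty, and for all `l` with `l 0, l 1 > 0` and all `ε > 0` the number of
rational points of `U` with `H(x) ^ l 0 * H(y) ^ l 1 ≤ T` is finite and at most
`C T ^ (fuj (N - k) l + ε)`.

The proof is a descent between the two projections of `X`, whose fibres are linear: a lattice of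
rank `N - k` has at most `(3 B / ρ) ^ (N - k)` times as many points in a box of size `B` as in a
box of size `ρ`.
-/

namespace Pool.Agent.Results.MP_18ea5f_nt.BilinearCompleteIntersections

open Pool.Agent.H548.BL
open Pool.Agent.H548.WM (ht Rep)

theorem result {k N : ℕ} (hk : 2 ≤ k) (hkN : 2 * k ≤ N) (M : Fin k → Matrix (Fin N) (Fin N) ℤ)
    (hs : Smooth M) (hf : 3 ≤ k → FinZeros M) :
    (∃ x y : Fin N → ℂ, x ≠ 0 ∧ y ≠ 0 ∧ Inc M x y ∧
      LinearIndependent ℂ (rv M x) ∧ LinearIndependent ℂ (cv M y)) ∧
    ∀ l : Fin 2 → ℝ, (∀ i, 0 < l i) → ∀ ε : ℝ, 0 < ε → ∃ C : ℝ, ∀ T : ℝ, 1 ≤ T →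
      {t : (Fin N → ℤ) × (Fin N → ℤ) | Rep t.1 ∧ Rep t.2 ∧ Inc M t.1 t.2 ∧
        LinearIndependent ℤ (rv M t.1) ∧ LinearIndependent ℤ (cv M t.2) ∧
        (ht t.1 : ℝ) ^ l 0 * (ht t.2 : ℝ) ^ l 1 ≤ T}.Finite ∧
      ({t : (Fin N → ℤ) × (Fin N → ℤ) | Rep t.1 ∧ Rep t.2 ∧ Inc M t.1 t.2 ∧
        LinearIndependent ℤ (rv M t.1) ∧ LinearIndependent ℤ (cv M t.2) ∧
        (ht t.1 : ℝ) ^ l 0 * (ht t.2 : ℝ) ^ l 1 ≤ T}.ncard : ℝ) ≤
        C * T ^ (fuj (N - k) l + ε) := by
  have hF : FinZeros M := by
    rcases hk.lt_or_eq with h | h
    · exact hf h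
    · subst h
      exact finZeros_two hs
  exact ⟨nonempty hs (by omega) hkN,
    upper M (by omega) fun ε hε => box hs hF (by omega) hkN ε hε⟩

end Pool.Agent.Results.MP_18ea5f_nt.BilinearCompleteIntersections
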