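import Mathlib
import Pool.Agent.H548.TL.Main
import Pool.Agent.H548.TL.Geo

/-!
The weak form of the conjecture of Manin for all smooth divisors `X` of type `(1,1,1)` in the
product of three projective spaces of any dimensions `n1, n2, n3 ≥ 2` over the rational numbers and
all big and nef line bundles `L`.

* `tf T x y z` is the value at `(x, y, z)` of the trilinear form with integer coefficients `T`; the
  divisor `X` is given by `tf T x y z = 0`.
* `g1 T y z`, `g2 T x z`, `g3 T x y` are the vectors of the partial derivatives of the form in the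
  first, second and third argument.
* `Smooth T`: there is no complex point at which all partial derivatives vanish.
* `InU T x y z`: the open set `U` of the points of `X` at which none of the three vectors `g1 T y z`,
  `g2 T x z`, `g3 T x y` is zero.
* `Rep v`: `v` is the normalised primitive integer representative of a rational point of a
  projective space (greatest common divisor of the coordinates `1`, first nonzero coordinate
  positive); `ht v` is its height, the maximum of the absolute values of the coordinates.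
* `fuj n1 n2 n3 l` is the infimum of all `t` such that `t L + K` is in the cone generated by the
  classes `(1,0,0)`, `(0,1,0)`, `(0,0,1)`, for `L = (l 0, l 1, l 2)` and `K = (-n1, -n2, -n3)`.

The theorem: `U` is not empty, and for all `l` with `l i > 0` and all `ε > 0` the number of rational
points of `U` with `H(x) ^ l 0 * H(y) ^ l 1 * H(z) ^ l 2 ≤ X` is finite and at most
`C X ^ (fuj n1 n2 n3 l + ε)`.
-/

namespace Pool.Agent.Results.MP_18ea5f_nt.TrilinearAllDimensions

open Pool.Agent.H548.TL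
open Pool.Agent.H548.WM (ht Rep)

theorem result {n1 n2 n3 : ℕ} (h1 : 2 ≤ n1) (h2 : 2 ≤ n2) (h3 : 2 ≤ n3)
    (T : Fin (n1 + 1) → Fin (n2 + 1) → Fin (n3 + 1) → ℤ) (hs : Smooth T) :
    (∃ (x : Fin (n1 + 1) → ℂ) (y : Fin (n2 + 1) → ℂ) (z : Fin (n3 + 1) → ℂ),
      x ≠ 0 ∧ y ≠ 0 ∧ z ≠ 0 ∧ InU T x y z) ∧
    ∀ l : Fin 3 → ℝ, (∀ i, 0 < l i) → ∀ ε : ℝ, 0 < ε → ∃ C : ℝ, ∀ X : ℝ, 1 ≤ X →
      {t : (Fin (n1 + 1) → ℤ) × (Fin (n2 + 1) → ℤ) × (Fin (n3 + 1) → ℤ) |
        Rep t.1 ∧ Rep t.2.1 ∧ Rep t.2.2 ∧ InU T t.1 t.2.1 t.2.2 ∧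
        (ht t.1 : ℝ) ^ l 0 * (ht t.2.1 : ℝ) ^ l 1 * (ht t.2.2 : ℝ) ^ l 2 ≤ X}.Finite ∧
      ({t : (Fin (n1 + 1) → ℤ) × (Fin (n2 + 1) → ℤ) × (Fin (n3 + 1) → ℤ) |
        Rep t.1 ∧ Rep t.2.1 ∧ Rep t.2.2 ∧ InU T t.1 t.2.1 t.2.2 ∧
        (ht t.1 : ℝ) ^ l 0 * (ht t.2.1 : ℝ) ^ l 1 * (ht t.2.2 : ℝ) ^ l 2 ≤ X}.ncard : ℝ) ≤
        C * X ^ (fuj n1 n2 n3 l + ε) := by
  refine ⟨?_, ?_⟩
  · obtain ⟨x, y, z, hU⟩ := nonempty (by omega) (by omega) (by omega) hs
    refine ⟨x, y, z, ?_, ?_, ?_, hU⟩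
    · rintro rfl
      exact hU.2.2.2 (g3_zero_left T y)
    · rintro rfl
      exact hU.2.2.2 (g3_zero_right T x)
    · rintro rfl
      exact hU.2.2.1 (g2_zero_right T x)
  · exact upper T n1 n2 n3 (by omega) (by omega) (by omega) fun ε hε =>
      box (by omega) (by omega) (by omega) (Sm.real hs) ε hε

end Pool.Agent.Results.MP_18ea5f_nt.TrilinearAllDimensions
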