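import Mathlib
import Pool.Agent.H548.WM.Main

/-!
The weak form of the conjecture of Manin for all smooth divisors `X` of type `(1,1,1)` in the
product of two projective lines and a projective space of any dimension `n ≥ 2` over the rational
numbers (Fano varieties of dimension `n + 1` and Picard number 3) and all big and nef line
bundles `L`.

* `fv a p q r` is the value at `(p, q, r)` of the trilinear form with integer coefficients `a`;
  the divisor `X` is given by `fv a p q r = 0`.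
* `Smooth a`: there is no complex point of `X` at which all partial derivatives vanish.
* `dt a r` is the determinant of the `2 × 2` matrix `mt a r` of the bilinear form in `p`, `q`
  which the trilinear form becomes for given `r`; the open set `U` is given by `dt a r ≠ 0`.
* `Rep v`: `v` is the normalised primitive integer representative of a rational point of a
  projective space (greatest common divisor of the coordinates `1`, first nonzero coordinate
  positive); `ht v` is its height, the maximum of the absolute values of the coordinates.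
* `fuj n l` is the infimum of all `t` such that `t L + K` lies in the cone generated by the classes
  `(1,0,0)`, `(0,1,0)`, `(1,-1,1)` and `(-1,1,1)` (the last two are the classes of the two
  components of `dt a r = 0` on `X`), for `L = (l 0, l 1, l 2)` and `K = (-1,-1,-n)`.

The theorem: `U` is not empty, and for all `l` with `l 0, l 1 ≥ 0`, `l 0 + l 1 > 0`, `l 2 > 0` the
number of rational points of `U` with `H(p) ^ l 0 * H(q) ^ l 1 * H(r) ^ l 2 ≤ T` is finite and at
most `C T ^ (fuj n l + ε)`.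
-/

namespace Pool.Agent.Results.MP_18ea5f_nt.TrilinearLinesAndSpace

open Pool.Agent.H548.WM

theorem result (n : ℕ) (hn : 2 ≤ n) (a : Fin 2 → Fin 2 → Fin (n + 1) → ℤ) (ha : Smooth a) :
    (∃ (p q : Fin 2 → ℂ) (r : Fin (n + 1) → ℂ), p ≠ 0 ∧ q ≠ 0 ∧ r ≠ 0 ∧ fv a p q r = 0 ∧
      dt a r ≠ 0) ∧
    ∀ l : Fin 3 → ℝ, 0 ≤ l 0 → 0 ≤ l 1 → 0 < l 0 + l 1 → 0 < l 2 →
      ∀ ε : ℝ, 0 < ε → ∃ C : ℝ, ∀ T : ℝ, 1 ≤ T →
        {x : (Fin 2 → ℤ) × (Fin 2 → ℤ) × (Fin (n + 1) → ℤ) | Rep x.1 ∧ Rep x.2.1 ∧ Rep x.2.2 ∧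
          fv a x.1 x.2.1 x.2.2 = 0 ∧ dt a x.2.2 ≠ 0 ∧
          (ht x.1 : ℝ) ^ l 0 * (ht x.2.1 : ℝ) ^ l 1 * (ht x.2.2 : ℝ) ^ l 2 ≤ T}.Finite ∧
        ({x : (Fin 2 → ℤ) × (Fin 2 → ℤ) × (Fin (n + 1) → ℤ) | Rep x.1 ∧ Rep x.2.1 ∧ Rep x.2.2 ∧
          fv a x.1 x.2.1 x.2.2 = 0 ∧ dt a x.2.2 ≠ 0 ∧
          (ht x.1 : ℝ) ^ l 0 * (ht x.2.1 : ℝ) ^ l 1 * (ht x.2.2 : ℝ) ^ l 2 ≤ T}.ncard : ℝ) ≤
          C * T ^ (fuj n l + ε) :=
  main n hn a ha

end Pool.Agent.Results.MP_18ea5f_nt.TrilinearLinesAndSpace
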