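import Mathlib
import Pool.Agent.H548.TC.All

/-!
The weak form of the conjecture of Manin for the blow-up `X` of the three-dimensional projective
space along the twisted cubic (the Fano threefold of the family 2.27, a projective line bundle over
the plane) over the rational numbers and all big and nef line bundles `L`.

* `Inc x y`: the point `(x, y)` of the product of the projective space and the projective plane
  satisfies the two equations `x₀ y₀ + x₁ y₁ + x₂ y₂ = 0` and `x₁ y₀ + x₂ y₁ + x₃ y₂ = 0`, which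
  define `X` as a smooth complete intersection of two divisors of type `(1,1)`.
* `hes x`: the three quadratic forms `x₁x₃ - x₂²`, `x₁x₂ - x₀x₃`, `x₀x₂ - x₁²`, which define the
  twisted cubic; `U` is the complement of the exceptional divisor, i.e. `hes x ≠ 0`.
* `Rep v`: `v` is the normalised primitive integer representative of a rational point of a
  projective space (greatest common divisor of the coordinates `1`, first nonzero coordinate
  positive); `ht v` is its height, the maximum of the absolute values of the coordinates.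
* `fuj l` is the infimum of all `t` such that `t L + K` lies in the cone generated by the classes
  `(0,1)` and `(2,-1)` (the exceptional divisor), for `L = (l 0, l 1)` and `K = (-2,-1)`.

The theorem: `U` is not empty, and for all `l` with `l 0 > 0` and `l 1 ≥ 0` the number of rational
points of `U` with `H(x) ^ l 0 * H(y) ^ l 1 ≤ T` is finite and at most
`C T ^ (fuj l) (1 + log T)`.
-/

namespace Pool.Agent.Results.MP_18ea5f_nt.TwistedCubicBlowup

open Pool.Agent.H548.TC
open Pool.Agent.H548.WM (ht Rep)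

theorem result :
    (∃ (x : Fin 4 → ℤ) (y : Fin 3 → ℤ), Rep x ∧ Rep y ∧ Inc x y ∧ hes x ≠ 0) ∧
    ∀ l : Fin 2 → ℝ, 0 < l 0 → 0 ≤ l 1 → ∃ C : ℝ, ∀ T : ℝ, 1 ≤ T →
      {t : (Fin 4 → ℤ) × (Fin 3 → ℤ) | Rep t.1 ∧ Rep t.2 ∧ Inc t.1 t.2 ∧ hes t.1 ≠ 0 ∧
        (ht t.1 : ℝ) ^ l 0 * (ht t.2 : ℝ) ^ l 1 ≤ T}.Finite ∧
      ({t : (Fin 4 → ℤ) × (Fin 3 → ℤ) | Rep t.1 ∧ Rep t.2 ∧ Inc t.1 t.2 ∧ hes t.1 ≠ 0 ∧
        (ht t.1 : ℝ) ^ l 0 * (ht t.2 : ℝ) ^ l 1 ≤ T}.ncard : ℝ) ≤
        C * T ^ fuj l * (1 + Real.log T) :=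
  ⟨nonempty, fun l hl0 hl1 => upper l hl0 hl1⟩

end Pool.Agent.Results.MP_18ea5f_nt.TwistedCubicBlowup
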